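import Pool.Agent.P.MP_fecf7d_an.LogMain

/-!
A continuous map f for which all functions log |f - y| are potentials of quasiharmonic fields with
uniform constants is quasiregular, or its composition with a reflection is quasiregular.
-/

namespace Pool.Agent.Results.MP_fecf7d_an.LogPotential

open Pool.Agent.P.MP_fecf7d_an

theorem result (n : ℕ) (hn : 2 ≤ n) (G : Set (E n)) (hG : IsOpen G) (hGc : IsConnected G)
    (f : E n → E n) (hf : ContinuousOn f G) (α β : ℝ) (hα : 0 < α)
    (h : ∀ y, QuasiPot α β (G \ f ⁻¹' {y}) fun x => Real.log ‖f x - y‖) :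
    IsQR G f ∨ ∀ r, IsReflection r → IsQR G (r ∘ f) :=
  log_final hn hG hGc.isPreconnected hf hα h

end Pool.Agent.Results.MP_fecf7d_an.LogPotential
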