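import Pool.Agent.P.MP_fecf7d_an.Final

/-!
Every n-harmonic morphism on a domain of R^n, n at least 3, is quasiregular, or its composition
with a reflection is quasiregular.
-/

namespace Pool.Agent.Results.MP_fecf7d_an.Yes

open Pool.Agent.P.MP_fecf7d_an

theorem result (n : ℕ) (hn : 3 ≤ n) (G : Set (E n)) (hG : IsOpen G) (hGc : IsConnected G)
    (f : E n → E n) (As A : E n → E n → E n) (hAs : Admissible As) (hA : Admissible A)
    (hf : IsMorphism As A G f) :
    IsQR G f ∨ ∀ r, IsReflection r → IsQR G (r ∘ f) :=
  final (by omega) hG hGc.isPreconnected hAs hA hf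

end Pool.Agent.Results.MP_fecf7d_an.Yes
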